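import Pool.Agent.V111.B6Q

/-!
An abelian group whose endomorphism ring is centrally essential but satisfies no polynomial
identity.
-/

namespace Pool.Agent.Results.MP_0be8ec_al.NonPI

open Pool.Agent.V111 Pool.Agent.V111.Realize

/-- Evaluation of a noncommutative polynomial with integer coefficients in the variables `x_i`,
`i : ℕ` (a finite `ℤ`-linear combination of words) at a sequence of ring elements. -/
noncomputable def evalPoly {S : Type} [Ring S] (r : ℕ → S)
    (p : MonoidAlgebra ℤ (FreeMonoid ℕ)) : S :=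
  MonoidAlgebra.lift ℤ S (FreeMonoid ℕ) (FreeMonoid.lift r) p

/-- `S` satisfies a polynomial identity one of whose monomials of maximal degree has
coefficient `1`. -/
def IsPI (S : Type) [Ring S] : Prop :=
  ∃ p : MonoidAlgebra ℤ (FreeMonoid ℕ),
    (∃ w : FreeMonoid ℕ, p.coeff w = 1 ∧ ∀ v : FreeMonoid ℕ, p.coeff v ≠ 0 → v.length ≤ w.length) ∧
    ∀ r : ℕ → S, evalPoly r p = 0

theorem evalPoly_map {S S' : Type} [Ring S] [Ring S'] (Ψ : S →+* S') (r : ℕ → S)
    (p : MonoidAlgebra ℤ (FreeMonoid ℕ)) : Ψ (evalPoly r p) = evalPoly (fun i => Ψ (r i)) p := by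
  unfold evalPoly
  rw [MonoidAlgebra.lift_apply, MonoidAlgebra.lift_apply, map_finsuppSum]
  apply Finsupp.sum_congr
  intro v hv
  clear hv
  rw [map_zsmul]
  congr 1
  induction v using FreeMonoid.inductionOn' with
  | one => simp
  | of_mul a v ih => rw [map_mul, map_mul, map_mul, ih]; simp

/-! ### The monoid -/

/-- Words with a nonnegative rational weight, weight zero being allowed for the empty word only. -/
def Mo : Submonoid (FreeMonoid ℕ × Multiplicative ℚ≥0) where
  carrier := {g | Multiplicative.toAdd g.2 = 0 → g.1 = 1}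
  one_mem' := fun _ => rfl
  mul_mem' := by
    rintro g h hg hh h0
    change Multiplicative.toAdd g.2 + Multiplicative.toAdd h.2 = 0 at h0
    have h1 : Multiplicative.toAdd g.2 = 0 := (add_eq_zero.mp h0).1
    have h2 : Multiplicative.toAdd h.2 = 0 := (add_eq_zero.mp h0).2
    change g.1 * h.1 = 1
    rw [hg h1, hh h2, one_mul]

/-- The weight. -/
def wt (g : Mo) : ℚ≥0 := Multiplicative.toAdd g.1.2

theorem wt_mul (g h : Mo) : wt (g * h) = wt g + wt h := rfl
theorem wt_one : wt 1 = 0 := rfl

theorem eq_one_of_wt {g : Mo} (h : wt g = 0) : g = 1 := by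
  apply Subtype.ext
  apply Prod.ext
  · exact g.2 h
  · exact Multiplicative.toAdd.injective h

theorem mul_right_cancel' {g h k : Mo} (e : g * k = h * k) : g = h := by
  apply Subtype.ext
  apply Prod.ext
  · have := congrArg (fun z : Mo => z.1.1) e
    exact mul_right_cancel this
  · have := congrArg (fun z : Mo => z.1.2) e
    exact mul_right_cancel this

instance : Countable (FreeMonoid ℕ) := inferInstanceAs (Countable (List ℕ))
instance : Countable (Multiplicative ℚ≥0) := inferInstanceAs (Countable ℚ≥0)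
instance : Countable Mo := inferInstance

/-! ### The rings -/

/-- The monoid algebra. -/
abbrev T0 : Type := MonoidAlgebra ℚ Mo

/-- The ideal of the elements supported in weights greater than one. -/
noncomputable def I : Ideal T0 where
  carrier := {f | ∀ g, wt g ≤ 1 → f.coeff g = 0}
  zero_mem' := fun g _ => by simp
  add_mem' := by
    intro f f' hf hf' g hg
    rw [MonoidAlgebra.coeff_add, Finsupp.add_apply, hf g hg, hf' g hg, add_zero]
  smul_mem' := by
    classical
    intro a f hf g hg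
    rw [smul_eq_mul, MonoidAlgebra.coeff_mul]
    apply Finset.sum_eq_zero
    intro m₁ _
    apply Finset.sum_eq_zero
    intro m₂ _
    simp only
    split_ifs with h
    · have h1 : wt m₂ ≤ 1 := by
        rw [← h, wt_mul] at hg
        exact le_trans (le_add_of_nonneg_left zero_le) hg
      rw [hf m₂ h1, mul_zero]
    · rfl

theorem mem_I {f : T0} : f ∈ I ↔ ∀ g, wt g ≤ 1 → f.coeff g = 0 := Iff.rfl

instance : I.IsTwoSided where
  mul_mem_of_left {f} a hf := by
    classical
    intro g hg
    rw [MonoidAlgebra.coeff_mul]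
    apply Finset.sum_eq_zero
    intro m₁ _
    apply Finset.sum_eq_zero
    intro m₂ _
    simp only
    split_ifs with h
    · have h1 : wt m₁ ≤ 1 := by
        rw [← h, wt_mul] at hg
        exact le_trans (le_add_of_nonneg_right zero_le) hg
      rw [hf m₁ h1, zero_mul]
    · rfl

/-- The ambient `ℚ`-algebra. -/
abbrev T : Type := T0 ⧸ I

/-- The integral elements. -/
noncomputable def π : MonoidAlgebra ℤ Mo →+* T :=
  (Ideal.Quotient.mk I).comp (MonoidAlgebra.mapRingHom Mo (Int.castRingHom ℚ))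

theorem coeff_map (f : MonoidAlgebra ℤ Mo) (g : Mo) :
    (MonoidAlgebra.mapRingHom Mo (Int.castRingHom ℚ) f).coeff g = (f.coeff g : ℚ) := by
  simp

theorem π_eq_zero {f : MonoidAlgebra ℤ Mo} : π f = 0 ↔ ∀ g, wt g ≤ 1 → f.coeff g = 0 := by
  change Ideal.Quotient.mk I _ = 0 ↔ _
  rw [Ideal.Quotient.eq_zero_iff_mem, mem_I]
  constructor
  · intro h g hg
    have := h g hg
    rw [coeff_map] at this
    exact_mod_cast this
  · intro h g hg
    rw [coeff_map, h g hg, Int.cast_zero]

/-- The subring. -/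
noncomputable def R : Subring T := π.range

instance : Countable (MonoidAlgebra ℤ Mo) :=
  Function.Injective.countable (f := MonoidAlgebra.coeff) MonoidAlgebra.coeff_injective

instance : Countable R := by
  have : Function.Surjective π.rangeRestrict := π.rangeRestrict_surjective
  exact this.countable

theorem coeff_natCast_mul (n : ℕ) (f : T0) (g : Mo) :
    ((n : T0) * f).coeff g = (n : ℚ) * f.coeff g := by
  rw [← nsmul_eq_mul, MonoidAlgebra.coeff_smul_apply, nsmul_eq_mul]

theorem reduced : Reduced R := by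
  intro ℓ hℓ r h
  obtain ⟨f, rfl⟩ := Ideal.Quotient.mk_surjective r
  rw [Ideal.Quotient.eq_zero_iff_mem, mem_I]
  intro g hg
  apply rat_eq_zero hℓ
  intro k
  obtain ⟨m, hm, s, ⟨f', rfl⟩, hs⟩ := h k
  refine ⟨m, hm, f'.coeff g, ?_⟩
  have h1 : Ideal.Quotient.mk I ((m : T0) * f - ((ℓ ^ k : ℕ) : T0) *
      MonoidAlgebra.mapRingHom Mo (Int.castRingHom ℚ) f') = 0 := by
    rw [map_sub, map_mul, map_mul, map_natCast, map_natCast, Nat.cast_pow, sub_eq_zero]
    exact hs
  rw [Ideal.Quotient.eq_zero_iff_mem, mem_I] at h1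
  have h2 := h1 g hg
  rw [MonoidAlgebra.coeff_sub, Finsupp.sub_apply, coeff_natCast_mul, coeff_natCast_mul, coeff_map,
    sub_eq_zero, Nat.cast_pow] at h2
  exact h2

/-- Elements supported in weights at least one commute with all integral elements modulo `I`. -/
theorem coeff_mul_heavy {u : MonoidAlgebra ℤ Mo} (hu : ∀ g, u.coeff g ≠ 0 → 1 ≤ wt g)
    (v : MonoidAlgebra ℤ Mo) {g : Mo} (hg : wt g ≤ 1) :
    (u * v).coeff g = u.coeff g * v.coeff 1 ∧ (v * u).coeff g = v.coeff 1 * u.coeff g := by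
  classical
  have key : ∀ m₁ m₂ : Mo, u.coeff m₁ ≠ 0 → wt m₁ + wt m₂ ≤ 1 → m₂ = 1 := by
    intro m₁ m₂ h1 h2
    apply eq_one_of_wt
    have h3 := hu m₁ h1
    have h4 : (1 : ℚ≥0) + wt m₂ ≤ 1 := le_trans (add_le_add_left h3 _) h2
    have h5 : wt m₂ ≤ 0 := by
      have : (1 : ℚ≥0) + wt m₂ ≤ 1 + 0 := by rw [add_zero]; exact h4
      exact le_of_add_le_add_left this
    exact le_antisymm h5 zero_le
  constructor
  · rw [MonoidAlgebra.coeff_mul, Finsupp.sum, Finset.sum_eq_single g]
    · rw [Finsupp.sum, Finset.sum_eq_single 1]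
      · rw [if_pos (mul_one g)]
      · intro m₂ _ hm₂
        rw [if_neg]
        intro h
        apply hm₂
        by_cases h0 : u.coeff g = 0
        · exact mul_left_cancel (a := g.1) (Subtype.ext_iff.mp (h.trans (mul_one g).symm)) |>
            fun h => Subtype.ext h
        · exact key g m₂ h0 (by rw [← wt_mul, h]; exact hg)
      · intro h
        rw [Finsupp.notMem_support_iff.mp h]
        simp
    · intro m₁ h1 hm₁
      rw [Finsupp.sum]
      apply Finset.sum_eq_zero
      intro m₂ _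
      rw [if_neg]
      intro h
      apply hm₁
      have h2 := key m₁ m₂ (Finsupp.mem_support_iff.mp h1) (by rw [← wt_mul, h]; exact hg)
      rw [h2, mul_one] at h
      exact h
    · intro h
      rw [Finsupp.notMem_support_iff.mp h]
      simp
  · rw [MonoidAlgebra.coeff_mul, Finsupp.sum, Finset.sum_eq_single 1]
    · rw [Finsupp.sum, Finset.sum_eq_single g]
      · rw [if_pos (one_mul g)]
      · intro m₂ _ hm₂
        rw [if_neg]
        rw [one_mul]
        exact hm₂
      · intro h
        rw [Finsupp.notMem_support_iff.mp h]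
        simp
    · intro m₁ _ hm₁
      rw [Finsupp.sum]
      apply Finset.sum_eq_zero
      intro m₂ h2
      rw [if_neg]
      intro h
      apply hm₁
      exact key m₂ m₁ (Finsupp.mem_support_iff.mp h2) (by rw [add_comm, ← wt_mul, h]; exact hg)
    · intro h
      rw [Finsupp.notMem_support_iff.mp h]
      simp

theorem comm_heavy {u : MonoidAlgebra ℤ Mo} (hu : ∀ g, u.coeff g ≠ 0 → 1 ≤ wt g)
    (v : MonoidAlgebra ℤ Mo) : π v * π u = π u * π v := by
  rw [← map_mul, ← map_mul, ← sub_eq_zero, ← map_sub, π_eq_zero]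
  intro g hg
  obtain ⟨h1, h2⟩ := coeff_mul_heavy hu v hg
  rw [MonoidAlgebra.coeff_sub, Finsupp.sub_apply, h1, h2, mul_comm, sub_self]

theorem essR : ∀ r ∈ R, r ≠ 0 → ∃ x ∈ R, ∃ y ∈ R, (∀ t ∈ R, t * x = x * t) ∧
      (∀ t ∈ R, t * y = y * t) ∧ x ≠ 0 ∧ y ≠ 0 ∧ r * x = y := by
  classical
  rintro r ⟨h, rfl⟩ hr0
  have hex : (h.coeff.support.filter (fun g => wt g ≤ 1)).Nonempty := by
    by_contra hno
    apply hr0
    rw [π_eq_zero]
    intro g hg
    by_contra hne
    exact hno ⟨g, Finset.mem_filter.mpr ⟨Finsupp.mem_support_iff.mpr hne, hg⟩⟩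
  obtain ⟨g₀, hg₀, hmin⟩ := Finset.exists_min_image _ wt hex
  obtain ⟨hs, hw⟩ := Finset.mem_filter.mp hg₀
  have hne := Finsupp.mem_support_iff.mp hs
  -- the central monomial of weight `1 - wt g₀`
  obtain ⟨τ, hτ1, hτ2⟩ : ∃ τ : Mo, τ.1.1 = 1 ∧ wt τ = 1 - wt g₀ :=
    ⟨⟨(1, Multiplicative.ofAdd (1 - wt g₀)), fun _ => rfl⟩, rfl, rfl⟩
  have hwt : wt g₀ + wt τ = 1 := by rw [hτ2]; exact add_tsub_cancel_of_le hw
  have hτc : ∀ g : Mo, τ * g = g * τ := by
    intro g
    apply Subtype.ext
    apply Prod.ext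
    · change τ.1.1 * g.1.1 = g.1.1 * τ.1.1
      rw [hτ1, one_mul, mul_one]
    · change τ.1.2 * g.1.2 = g.1.2 * τ.1.2
      exact mul_comm _ _
  have hxc : ∀ t ∈ R, t * π (MonoidAlgebra.single τ 1) = π (MonoidAlgebra.single τ 1) * t := by
    rintro _ ⟨v, rfl⟩
    rw [← map_mul, ← map_mul]
    congr 1
    exact ((MonoidAlgebra.single_commute (fun m => hτc m) (fun r => Commute.one_left r) v).eq).symm
  have hcoef : ∀ g, (h * MonoidAlgebra.single τ (1 : ℤ)).coeff (g * τ) = h.coeff g := by
    intro g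
    rw [MonoidAlgebra.coeff_mul_single_eq_coeff_mul g (by
      intro m' _
      exact ⟨fun e => mul_right_cancel' e, fun e => by rw [e]⟩), mul_one]
  have hheavy : ∀ g, (h * MonoidAlgebra.single τ (1 : ℤ)).coeff g ≠ 0 → 1 ≤ wt g := by
    intro g hg
    by_cases hd : ∃ d, d * τ = g
    · obtain ⟨d, rfl⟩ := hd
      rw [hcoef] at hg
      rw [wt_mul, ← hwt]
      apply add_le_add_left
      by_contra hlt
      push Not at hlt
      have := hmin d (Finset.mem_filter.mpr ⟨Finsupp.mem_support_iff.mpr hg, hlt.le.trans hw⟩)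
      exact absurd this (not_le.mpr hlt)
    · exfalso
      apply hg
      apply MonoidAlgebra.coeff_mul_single_of_forall_mul_ne
      intro d hd'
      exact hd ⟨d, hd'⟩
  have hyne : π h * π (MonoidAlgebra.single τ 1) ≠ 0 := by
    rw [← map_mul]
    intro h0
    rw [π_eq_zero] at h0
    have := h0 (g₀ * τ) (by rw [wt_mul, hwt])
    rw [hcoef] at this
    exact hne this
  refine ⟨π (MonoidAlgebra.single τ 1), ⟨_, rfl⟩, π h * π (MonoidAlgebra.single τ 1),
    ⟨_, map_mul _ _ _⟩, hxc, ?_, ?_, hyne, rfl⟩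
  · rintro _ ⟨v, rfl⟩
    rw [← map_mul π h]
    exact comm_heavy hheavy v
  · intro h0
    apply hyne
    rw [h0, mul_zero]

/-- The homomorphism sending the word `w` to `w` with weight `|w| / D`. -/
noncomputable def wordHom (D : ℚ≥0) (hD : D ≠ 0) : FreeMonoid ℕ →* Mo :=
  FreeMonoid.lift (fun i => ⟨(FreeMonoid.of i, Multiplicative.ofAdd D), fun h => absurd h hD⟩)

theorem wordHom_fst (D : ℚ≥0) (hD : D ≠ 0) (w : FreeMonoid ℕ) : (wordHom D hD w).1.1 = w := by
  induction w using FreeMonoid.inductionOn' with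
  | one => rw [map_one]; rfl
  | of_mul a v ih =>
    rw [map_mul]
    change (wordHom D hD (FreeMonoid.of a)).1.1 * (wordHom D hD v).1.1 = _
    rw [ih]
    simp [wordHom]

theorem wordHom_wt (D : ℚ≥0) (hD : D ≠ 0) (w : FreeMonoid ℕ) :
    wt (wordHom D hD w) = w.length * D := by
  induction w using FreeMonoid.inductionOn' with
  | one => rw [map_one, wt_one]; simp
  | of_mul a v ih =>
    rw [map_mul, wt_mul, ih, FreeMonoid.length_mul]
    have : wt (wordHom D hD (FreeMonoid.of a)) = D := by
      simp only [wordHom, FreeMonoid.lift_eval_of]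
      rfl
    rw [this]
    simp
    ring

theorem wordHom_inj (D : ℚ≥0) (hD : D ≠ 0) : Function.Injective (wordHom D hD) := by
  intro v w h
  rw [← wordHom_fst D hD v, h, wordHom_fst]

theorem not_pi : ∀ p : MonoidAlgebra ℤ (FreeMonoid ℕ), ∀ w : FreeMonoid ℕ, p.coeff w = 1 →
    ∃ r : ℕ → T, (∀ i, r i ∈ R) ∧ evalPoly r p ≠ 0 := by
  intro p w hw
  obtain ⟨D, hD, hwD⟩ : ∃ D : ℚ≥0, D ≠ 0 ∧ w.length * D ≤ 1 := by
    refine ⟨((w.length : ℚ≥0) + 1)⁻¹, ?_, ?_⟩
    · positivity
    · rw [← div_eq_mul_inv, div_le_one (by positivity)]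
      exact le_add_of_nonneg_right zero_le
  refine ⟨fun i => π (MonoidAlgebra.single (wordHom D hD (FreeMonoid.of i)) 1),
    fun i => ⟨_, rfl⟩, ?_⟩
  have h1 : evalPoly (fun i => π (MonoidAlgebra.single (wordHom D hD (FreeMonoid.of i)) 1)) p =
      π (evalPoly (fun i => MonoidAlgebra.single (wordHom D hD (FreeMonoid.of i)) 1) p) :=
    (evalPoly_map π _ p).symm
  have h2 : evalPoly (fun i => (MonoidAlgebra.single (wordHom D hD (FreeMonoid.of i)) 1 :
      MonoidAlgebra ℤ Mo)) p = p.coeff.sum (fun v c => MonoidAlgebra.single (wordHom D hD v) c) := by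
    unfold evalPoly
    rw [MonoidAlgebra.lift_apply]
    apply Finsupp.sum_congr
    intro v _
    have h3 : ∀ v : FreeMonoid ℕ, FreeMonoid.lift (fun i =>
        (MonoidAlgebra.single (wordHom D hD (FreeMonoid.of i)) 1 : MonoidAlgebra ℤ Mo)) v =
        MonoidAlgebra.single (wordHom D hD v) 1 := by
      intro v
      induction v using FreeMonoid.inductionOn' with
      | one => rw [map_one, map_one]; rfl
      | of_mul a v ih =>
        rw [map_mul, ih, FreeMonoid.lift_eval_of, MonoidAlgebra.single_mul_single, ← map_mul,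
          mul_one]
    rw [h3]
    simp
  rw [h1, h2]
  intro h0
  rw [π_eq_zero] at h0
  have h3 := h0 (wordHom D hD w) (by rw [wordHom_wt]; exact hwD)
  rw [MonoidAlgebra.coeff_finsuppSum, Finsupp.sum_apply, Finsupp.sum,
    Finset.sum_eq_single w] at h3
  · rw [MonoidAlgebra.coeff_single, Finsupp.single_eq_same, hw] at h3
    exact one_ne_zero h3
  · intro v _ hv
    rw [MonoidAlgebra.coeff_single, Finsupp.single_eq_of_ne]
    intro h
    exact hv (wordHom_inj D hD h).symm
  · intro h
    rw [Finsupp.notMem_support_iff.mp h]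
    simp

/-- **An abelian group whose endomorphism ring is centrally essential but not a PI ring.** -/
theorem result : ∃ (A : Type) (_ : AddCommGroup A),
    CentrallyEssential (AddMonoid.End A) ∧ ¬ IsPI (AddMonoid.End A) := by
  obtain ⟨A, instA, O, e, hRO, hO⟩ := main R reduced
  refine ⟨A, instA, centrallyEssential_congr e (centrallyEssential_of R O hRO hO essR), ?_⟩
  rintro ⟨p, ⟨w, hw, _⟩, hp⟩
  obtain ⟨r, hr, hne⟩ := not_pi p w hw
  apply hne
  have h1 := evalPoly_map ((O.subtype).comp (e : AddMonoid.End A →+* O))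
    (fun i => e.symm ⟨r i, hRO (hr i)⟩) p
  rw [hp, map_zero] at h1
  rw [h1]
  congr 1
  funext i
  simp

end Pool.Agent.Results.MP_0be8ec_al.NonPI
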